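import Mathlib
import Pool.Agent.Q292.GWS.Defs
import Pool.Agent.Q292.GWS.Main

/-!
# MP_97806e_pr, Q1: an order-`2` expansion of the annealed survival function without class `C²`

For the offspring law with atoms `2^(7^j)` of mass proportional to `2^(-j) 2^(-7^j)` the annealed
survival function of percolation on the Galton-Watson tree satisfies `g (p_c + ε) = o(ε²)`, hence
has an order-`2` expansion at `p_c⁺`, but it is not of class `C²` on any interval
`[p_c, p_c + δ)`.
-/

namespace Pool.Agent.Results.MP_97806e_pr.ExpansionNotSmooth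

open MeasureTheory Q292.GWS

theorem result :
    ∃ μ : Measure ℕ, IsProbabilityMeasure μ ∧ Integrable (fun k : ℕ => (k : ℝ)) μ ∧
      1 < ∫ k : ℕ, (k : ℝ) ∂μ ∧ ∃ k : ℕ, 1 ≤ k ∧
        HasExpansion (annealed μ) (1 / ∫ k : ℕ, (k : ℝ) ∂μ) k ∧
        ¬ ClassC (annealed μ) (1 / ∫ k : ℕ, (k : ℝ) ∂μ) k :=
  ⟨law, law_prob, law_integrable, by linarith [mean_gt], 2, by norm_num, expansion, not_classC⟩

end Pool.Agent.Results.MP_97806e_pr.ExpansionNotSmooth
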